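import Pool.Agent.Helper94.BR.Num

/-! # Project PN (MP_2b6189_al): the numbers of a ghost prime, any parity -/

set_option autoImplicit false

namespace Pool.Agent.Helper52.PN

/-- The conclusion: the numerical restrictions. -/
def Conc (p m : ℕ) : Prop :=
  ∃ N A : ℕ, 3 ≤ N ∧ N ∣ p - 1 ∧ A ∣ m ∧ (p + 1) ^ 2 ≤ 2 * A ∧
    ((p : ℤ) ∣ A - N ∨ (p : ℤ) ∣ A + N) ∧
    ∀ v u c d R : ℕ, v.Prime → u.Prime → 0 < R →
      (m ∣ v ^ c * u ^ d * R → p ≤ 2 * R) ∧ (A ∣ v ^ c * u ^ d * R → p ^ 2 ≤ 4 * N * R ^ 2)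

/-- The torus fixed elements `S` of the principal block (`w v = y v / g`, `d v` the dimension). -/
structure Gm {ι : Type} (p m N : ℕ) (D : ℤ) (S : Finset ι) (w : ι → ℤ) (d : ι → ℕ) : Prop where
  prime : p.Prime
  odd : Odd p
  m0 : 0 < m
  Dm : D ∣ m
  DN : (p : ℤ) ∣ D - N
  w0 : ∀ v ∈ S, w v ≠ 0
  d1 : ∀ v ∈ S, 1 < d v
  pd : ∀ v ∈ S, ¬ p ∣ d v
  dm : ∀ v ∈ S, d v ∣ m
  F : ∀ v ∈ S, (p : ℤ) ∣ d v + w v
  om : ∀ v ∈ S, ∃ k : ℤ, (p * k - N) * d v = D * w v
  gcd : ∀ v ∈ S, ∀ v' ∈ S, v ≠ v' → p < 2 * Nat.gcd (d v) (d v')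

/-- The case `g ≥ 2`: `S` and the orbit of `W`, `dW` its dimension, `yW` the value of `y`. -/
structure Gm2 {ι : Type} (p m N g : ℕ) (D : ℤ) (S : Finset ι) (w : ι → ℤ) (d : ι → ℕ)
    (yW : ℤ) (dW : ℕ) : Prop extends Gm p m N D S w d where
  g2 : 2 ≤ g
  pN : p = 1 + N * g
  sq : yW ^ 2 + g * ∑ v ∈ S, w v ^ 2 = p - g
  dim : yW * dW + ∑ v ∈ S, w v * d v = 1
  dW1 : 1 < dW
  dWm : dW ∣ m
  gcdW : ∀ v ∈ S, p < 2 * Nat.gcd (d v) dW

/-- The case `g = 1`: `N = p - 1`, all elements of the block with `t = 1` are torus fixed. -/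
structure Gm1 {ι : Type} (p m N : ℕ) (D : ℤ) (S : Finset ι) (w : ι → ℤ) (d : ι → ℕ) :
    Prop extends Gm p m N D S w d where
  pN : p = 1 + N
  sq : ∑ v ∈ S, w v ^ 2 = N
  dim : ∑ v ∈ S, w v * (d v : ℤ) = 1
  ne : ∀ v ∈ S, D * w v ≠ d v

section

variable {ι : Type} {p m N g : ℕ} {D : ℤ} {S : Finset ι} {w : ι → ℤ} {d : ι → ℕ} {yW : ℤ}
  {dW : ℕ}

/-- Two torus fixed elements which are not proportional. -/
theorem Gm.pair (h : Gm p m N D S w d) (v v' : ι) (hv : v ∈ S) (hv' : v' ∈ S)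
    (hne : w v' * d v ≠ w v * d v') : ∃ (J k k' : ℤ), (p : ℤ) + 1 ≤ 2 * |J| ∧
      (p * k - N) * d v = D * w v ∧ (p * k' - N) * d v' = D * w v' ∧ J ≠ 0 ∧
      J * ((p * k - N) * (p * k' - N)) = D * (w v * w v') * (k' - k) := by
  have hvv : v ≠ v' := by
    rintro rfl
    exact hne rfl
  obtain ⟨f, hf⟩ := h.F v hv
  obtain ⟨f', hf'⟩ := h.F v' hv'
  obtain ⟨k, hk⟩ := h.om v hv
  obtain ⟨k', hk'⟩ := h.om v' hv'
  have hp0 : (0 : ℤ) < p := by exact_mod_cast h.prime.pos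
  have e1 : p * (w v' * f - w v * f') = w v' * d v - w v * d v' := by
    linear_combination (-(w v')) * hf + w v * hf'
  have hJ0 : w v' * f - w v * f' ≠ 0 := by
    intro h0
    rw [h0, mul_zero] at e1
    exact hne (by linarith)
  have hcop : IsCoprime ((Nat.gcd (d v) (d v') : ℕ) : ℤ) (p : ℤ) := by
    rw [Nat.isCoprime_iff_coprime]
    exact ((Nat.Prime.coprime_iff_not_dvd h.prime).2
      fun h1 => h.pd v hv (h1.trans (Nat.gcd_dvd_left _ _))).symm
  have hGJ : ((Nat.gcd (d v) (d v') : ℕ) : ℤ) ∣ w v' * f - w v * f' := by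
    have h1 : ((Nat.gcd (d v) (d v') : ℕ) : ℤ) ∣ p * (w v' * f - w v * f') := by
      rw [e1]
      exact dvd_sub (Dvd.dvd.mul_left (Int.natCast_dvd_natCast.2 (Nat.gcd_dvd_left _ _)) _)
        (Dvd.dvd.mul_left (Int.natCast_dvd_natCast.2 (Nat.gcd_dvd_right _ _)) _)
    exact hcop.dvd_of_dvd_mul_left h1
  have hGle : ((Nat.gcd (d v) (d v') : ℕ) : ℤ) ≤ |w v' * f - w v * f'| :=
    Int.le_of_dvd (abs_pos.2 hJ0) ((dvd_abs _ _).2 hGJ)
  have hbig : (p : ℤ) < 2 * ((Nat.gcd (d v) (d v') : ℕ) : ℤ) := by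
    exact_mod_cast h.gcd v hv v' hv' hvv
  refine ⟨w v' * f - w v * f', k, k', by omega, hk, hk', hJ0, ?_⟩
  apply mul_left_cancel₀ hp0.ne'
  have : p * ((w v' * f - w v * f') * ((p * k - N) * (p * k' - N))) =
      (w v' * d v - w v * d v') * ((p * k - N) * (p * k' - N)) := by
    rw [← e1]; ring
  rw [this]
  calc (w v' * d v - w v * d v') * ((p * k - N) * (p * k' - N)) =
        w v' * ((p * k - N) * d v) * (p * k' - N) -
          w v * ((p * k' - N) * d v') * (p * k - N) := by ring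
    _ = w v' * (D * w v) * (p * k' - N) - w v * (D * w v') * (p * k - N) := by rw [hk, hk']
    _ = p * (D * (w v * w v') * (k' - k)) := by ring

theorem two_mul_abs_le (v v' : ι) (hv : v ∈ S) (hv' : v' ∈ S)
    (hvv : v ≠ v') : 2 * |w v * w v'| ≤ ∑ i ∈ S, w i ^ 2 := by
  classical
  have h6 : ∑ i ∈ ({v, v'} : Finset ι), w i ^ 2 ≤ ∑ i ∈ S, w i ^ 2 := by
    apply Finset.sum_le_sum_of_subset_of_nonneg
    · intro i hi
      simp only [Finset.mem_insert, Finset.mem_singleton] at hi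
      rcases hi with rfl | rfl
      · exact hv
      · exact hv'
    · intro i _ _
      exact sq_nonneg _
  rw [Finset.sum_pair hvv] at h6
  have h7 : 2 * |w v * w v'| ≤ w v ^ 2 + w v' ^ 2 := by
    rw [abs_mul]
    have := two_mul_le_add_sq |w v| |w v'|
    rw [sq_abs, sq_abs] at this
    linarith
  linarith

theorem card_le (h0 : ∀ v ∈ S, w v ≠ 0) : (S.card : ℤ) ≤ ∑ i ∈ S, w i ^ 2 := by
  rw [Finset.cast_card]
  refine Finset.sum_le_sum fun i hi => ?_
  have h1 : w i ^ 2 ≠ 0 := pow_ne_zero 2 (h0 i hi)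
  have h2 := sq_nonneg (w i)
  omega

theorem Gm.A_ne (h : Gm p m N D S w d) : D ≠ 0 := by
  rintro rfl
  have h1 := h.Dm
  rw [zero_dvd_iff] at h1
  have h2 := h.m0
  have h3 : m = 0 := by exact_mod_cast h1
  omega

/-- the inequality for the case `g = 1` -/
theorem kk1 {p k k' : ℤ} (hp : 2 ≤ p) (hk : k ≠ 0) (hk' : k' ≠ 0) :
    |k - k'| * (p ^ 2 - 1) ≤ 2 * (|p * k + 1| * |p * k' + 1|) := by
  have key1 : ∀ a b : ℤ, 1 ≤ a → 1 ≤ b →
      |a - b| * (p ^ 2 - 1) ≤ 2 * ((p * a + 1) * (p * b + 1)) := by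
    intro a b ha hb
    have h1 : |a - b| ≤ a * b := by
      rw [abs_le]
      constructor <;> nlinarith
    have h2 : (0 : ℤ) ≤ p ^ 2 - 1 := by nlinarith
    calc |a - b| * (p ^ 2 - 1) ≤ a * b * (p ^ 2 - 1) := mul_le_mul_of_nonneg_right h1 h2
      _ ≤ 2 * ((p * a + 1) * (p * b + 1)) := by
          have h3 : 0 ≤ p * a := by nlinarith
          have h4 : 0 ≤ p * b := by nlinarith
          have h5 : 0 ≤ a * b := by nlinarith
          nlinarith [mul_nonneg h3 h4]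
  have key2 : ∀ a b : ℤ, 1 ≤ a → 1 ≤ b → b ≤ a →
      (a - b) * (p ^ 2 - 1) ≤ 2 * ((p * a - 1) * (p * b - 1)) := by
    intro a b ha hb hab
    have h1 : p - 1 ≤ p * b - 1 := by nlinarith
    have h2 : (p + 1) * (a - 1) ≤ 2 * (p * a - 1) := by nlinarith
    have h3 : (a - b) * (p ^ 2 - 1) ≤ (a - 1) * (p ^ 2 - 1) :=
      mul_le_mul_of_nonneg_right (by omega) (by nlinarith)
    calc (a - b) * (p ^ 2 - 1) ≤ ((p + 1) * (a - 1)) * (p - 1) := by nlinarith
      _ ≤ (2 * (p * a - 1)) * (p - 1) := mul_le_mul_of_nonneg_right h2 (by omega)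
      _ ≤ (2 * (p * a - 1)) * (p * b - 1) := mul_le_mul_of_nonneg_left h1 (by nlinarith)
      _ = _ := by ring
  have key3 : ∀ a b : ℤ, 1 ≤ a → 1 ≤ b →
      (a + b) * (p ^ 2 - 1) ≤ 2 * ((p * a + 1) * (p * b - 1)) := by
    intro a b ha hb
    have h1 : 2 * ((p * a + 1) * (p * b - 1)) - (a + b) * (p ^ 2 - 1) =
        (a - 1) * (p - 1) ^ 2 + (b - 1) * (p + 1) ^ 2 + 2 * p ^ 2 * ((a - 1) * (b - 1)) := by
      ring
    have h2 : 0 ≤ (a - 1) * (p - 1) ^ 2 := mul_nonneg (by omega) (sq_nonneg _)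
    have h3 : 0 ≤ (b - 1) * (p + 1) ^ 2 := mul_nonneg (by omega) (sq_nonneg _)
    have h4 : 0 ≤ 2 * p ^ 2 * ((a - 1) * (b - 1)) :=
      mul_nonneg (by positivity) (mul_nonneg (by omega) (by omega))
    linarith
  rcases lt_or_gt_of_ne hk with h | h <;> rcases lt_or_gt_of_ne hk' with h' | h'
  · have e1 : |p * k + 1| = p * (-k) - 1 := by
      rw [abs_of_nonpos (by nlinarith)]; ring
    have e2 : |p * k' + 1| = p * (-k') - 1 := by
      rw [abs_of_nonpos (by nlinarith)]; ring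
    rw [e1, e2]
    rcases le_total (-k') (-k) with h1 | h1
    · have e3 : |k - k'| = -k - -k' := by
        rw [abs_of_nonpos (by omega)]; ring
      rw [e3]
      exact key2 (-k) (-k') (by omega) (by omega) h1
    · have e3 : |k - k'| = -k' - -k := by
        rw [abs_of_nonneg (by omega)]; ring
      rw [e3, mul_comm (p * -k - 1)]
      exact key2 (-k') (-k) (by omega) (by omega) h1
  · have e1 : |p * k + 1| = p * (-k) - 1 := by
      rw [abs_of_nonpos (by nlinarith)]; ring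
    have e2 : |p * k' + 1| = p * k' + 1 := abs_of_nonneg (by nlinarith)
    have e3 : |k - k'| = k' + -k := by
      rw [abs_of_nonpos (by omega)]; ring
    rw [e1, e2, e3, mul_comm (p * -k - 1)]
    exact key3 k' (-k) (by omega) (by omega)
  · have e1 : |p * k' + 1| = p * (-k') - 1 := by
      rw [abs_of_nonpos (by nlinarith)]; ring
    have e2 : |p * k + 1| = p * k + 1 := abs_of_nonneg (by nlinarith)
    have e3 : |k - k'| = k + -k' := by
      rw [abs_of_nonneg (by omega)]; ring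
    rw [e1, e2, e3]
    exact key3 k (-k') (by omega) (by omega)
  · have e1 : |p * k + 1| = p * k + 1 := abs_of_nonneg (by nlinarith)
    have e2 : |p * k' + 1| = p * k' + 1 := abs_of_nonneg (by nlinarith)
    rw [e1, e2]
    exact key1 k k' (by omega) (by omega)

/-- The estimate, `g ≥ 2`. -/
theorem Gm2.big (h : Gm2 p m N g D S w d yW dW) : ((p : ℤ) + 1) ^ 2 ≤ 2 * |D| := by
  have hp0 : (0 : ℤ) < p := by exact_mod_cast h.prime.pos
  have hg : (2 : ℤ) ≤ g := by exact_mod_cast h.g2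
  have hpN : (p : ℤ) = 1 + N * g := by exact_mod_cast h.pN
  have hN1 : (1 : ℤ) ≤ N := by
    rcases Nat.eq_zero_or_pos N with h0 | h0
    · have h1 := h.pN
      rw [h0] at h1
      have := h.prime.one_lt
      omega
    · exact_mod_cast h0
  have h2N : 2 * (N : ℤ) < p := by nlinarith
  -- the sum of squares
  have hy0 : yW ≠ 0 := by
    rintro rfl
    have h1 := h.sq
    have h2 : (g : ℤ) ∣ 1 := ⟨∑ v ∈ S, w v ^ 2 + 1 - N, by
      rw [hpN] at h1
      linear_combination (-1 : ℤ) * h1⟩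
    have := Int.le_of_dvd one_pos h2
    omega
  have hy1 : 1 ≤ yW ^ 2 := by
    have := sq_nonneg yW
    have h2 : yW ^ 2 ≠ 0 := pow_ne_zero 2 hy0
    omega
  have hsum : ∑ v ∈ S, w v ^ 2 ≤ N - 1 := by
    have h1 := h.sq
    have h2 : g * ∑ v ∈ S, w v ^ 2 ≤ g * (N - 1 : ℤ) := by
      rw [hpN] at h1
      nlinarith
    exact le_of_mul_le_mul_left h2 (by omega)
  by_contra hlt
  push Not at hlt
  -- all proportional
  have hprop : ∀ v ∈ S, ∀ v' ∈ S, w v' * (d v : ℤ) = w v * (d v' : ℤ) := by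
    intro v hv v' hv'
    by_contra hne
    have hvv : v ≠ v' := by
      rintro rfl
      exact hne rfl
    obtain ⟨J, k, k', hJ, hk, hk', hJ0, hrel⟩ := h.toGm.pair v v' hv hv' hne
    have hww := two_mul_abs_le (w := w) v v' hv hv' hvv
    have om0 : ∀ j : ℤ, p * j - N ≠ 0 := by
      intro j hj
      rcases le_or_gt j 0 with h0 | h0
      · nlinarith
      · have : (1:ℤ) ≤ j := h0
        nlinarith
    have hkk : k ≠ k' := by
      intro h0
      rw [h0, sub_self, mul_zero] at hrel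
      rcases mul_eq_zero.1 hrel with h1 | h1
      · exact hJ0 h1
      · rcases mul_eq_zero.1 h1 with h2 | h2
        · exact om0 _ h2
        · exact om0 _ h2
    have e4 : |J| * (|(p : ℤ) * k - N| * |(p : ℤ) * k' - N|) =
        |D| * |w v * w v'| * |k - k'| := by
      rw [← abs_mul, ← abs_mul, hrel, abs_mul, abs_mul, abs_sub_comm k' k]
    have h3 := Pool.Agent.Helper94.BR.kk (by omega) h2N hkk
    have hkpos : 0 < |k - k'| := abs_pos.2 (sub_ne_zero.2 hkk)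
    have h4 : |J| * (N * (p - N)) ≤ |D| * |w v * w v'| := by
      have h5 : |J| * (N * (p - N)) * |k - k'| ≤ |D| * |w v * w v'| * |k - k'| := by
        rw [← e4]
        calc |J| * (N * (p - N)) * |k - k'| = |J| * (|k - k'| * (N * (p - N))) := by ring
          _ ≤ |J| * (|(p : ℤ) * k - N| * |(p : ℤ) * k' - N|) :=
              mul_le_mul_of_nonneg_left h3 (abs_nonneg J)
      exact le_of_mul_le_mul_right h5 hkpos
    have hD0 : 0 ≤ |D| := abs_nonneg D
    have h6 : 2 * (|D| * |w v * w v'|) ≤ |D| * (N - 1) := by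
      have : |D| * (2 * |w v * w v'|) ≤ |D| * (N - 1) :=
        mul_le_mul_of_nonneg_left (by linarith) hD0
      linarith
    have h7 : (p + 1) * (N * (p - N)) ≤ 2 * |J| * (N * (p - N) : ℤ) :=
      mul_le_mul_of_nonneg_right hJ (mul_nonneg (by omega) (by omega))
    have h8 : (p + 1) * (N * (p - N)) ≤ |D| * (N - 1 : ℤ) := by linarith
    have h9 : (p : ℤ) + 1 ≤ 2 * (p - N) := by omega
    have h10 : (p + 1 : ℤ) * (N * (p + 1)) ≤ (p + 1) * (N * (2 * (p - N))) :=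
      mul_le_mul_of_nonneg_left (mul_le_mul_of_nonneg_left h9 (by omega)) (by omega)
    have h11 : (N : ℤ) * (p + 1) ^ 2 ≤ 2 * (|D| * (N - 1)) := by nlinarith
    have h12 : (N : ℤ) * (2 * |D|) < N * (p + 1) ^ 2 := mul_lt_mul_of_pos_left hlt (by omega)
    nlinarith
  -- nonempty
  have hne : S.Nonempty := by
    rw [Finset.nonempty_iff_ne_empty]
    rintro rfl
    have h1 := h.dim
    rw [Finset.sum_empty, add_zero] at h1
    have h2 : (dW : ℤ) ∣ 1 := ⟨yW, by rw [mul_comm]; exact h1.symm⟩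
    have h3 := Int.le_of_dvd one_pos h2
    have h4 := h.dW1
    omega
  obtain ⟨v0, hv0⟩ := hne
  have hlast := Pool.Agent.Helper94.BR.last_step S w (fun v => (d v : ℤ)) yW dW (w v0) (d v0)
    (Nat.gcd (d v0) dW : ℕ) h.dim (fun v hv => hprop v hv v0 hv0)
    (Int.natCast_dvd_natCast.2 (Nat.gcd_dvd_right _ _))
    (Int.natCast_dvd_natCast.2 (Nat.gcd_dvd_left _ _))
  have hbig : (p : ℤ) < 2 * ((Nat.gcd (d v0) dW : ℕ) : ℤ) := by
    exact_mod_cast h.gcdW v0 hv0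
  have h1 : ((Nat.gcd (d v0) dW : ℕ) : ℤ) ≤ |w v0| :=
    Int.le_of_dvd (abs_pos.2 (h.w0 v0 hv0)) ((dvd_abs _ _).2 hlast)
  have h2 : w v0 ^ 2 ≤ N - 1 :=
    (Finset.single_le_sum (f := fun v => w v ^ 2) (fun i _ => sq_nonneg _) hv0).trans hsum
  have h3 : |w v0| ≤ w v0 ^ 2 := by
    rw [← sq_abs]
    have : 1 ≤ |w v0| := Int.one_le_abs (h.w0 v0 hv0)
    nlinarith
  omega

/-- The estimate, `g = 1`. -/
theorem Gm1.big (h : Gm1 p m N D S w d) : ((p : ℤ) + 1) ^ 2 ≤ 2 * |D| := by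
  have hp2 : (2 : ℤ) ≤ p := by exact_mod_cast h.prime.two_le
  have hp3 : (3 : ℤ) ≤ p := by
    obtain ⟨r, hr⟩ := h.odd
    omega
  have hpN : (p : ℤ) = 1 + N := by exact_mod_cast h.pN
  have hne : S.Nonempty := by
    rw [Finset.nonempty_iff_ne_empty]
    rintro rfl
    have h1 := h.dim
    rw [Finset.sum_empty] at h1
    exact absurd h1 (by norm_num)
  by_contra hlt
  push Not at hlt
  have hprop : ∀ v ∈ S, ∀ v' ∈ S, w v' * (d v : ℤ) = w v * (d v' : ℤ) := by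
    intro v hv v' hv'
    by_contra hne'
    have hvv : v ≠ v' := by
      rintro rfl
      exact hne' rfl
    obtain ⟨J, k, k', hJ, hk, hk', hJ0, hrel⟩ := h.toGm.pair v v' hv hv' hne'
    have hww := two_mul_abs_le (w := w) v v' hv hv' hvv
    rw [h.sq] at hww
    have e1 : ∀ j : ℤ, (p : ℤ) * j - N = p * (j - 1) + 1 := by
      intro j
      rw [hpN]; ring
    have hk1 : k - 1 ≠ 0 := by
      intro h0
      apply h.ne v hv
      rw [e1, h0, mul_zero, zero_add, one_mul] at hk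
      exact hk.symm
    have hk1' : k' - 1 ≠ 0 := by
      intro h0
      apply h.ne v' hv'
      rw [e1, h0, mul_zero, zero_add, one_mul] at hk'
      exact hk'.symm
    rw [e1, e1] at hrel
    have om0 : ∀ j : ℤ, (p : ℤ) * j + 1 ≠ 0 := by
      intro j hj
      have h1 : (p : ℤ) ∣ 1 := ⟨-j, by linarith⟩
      have := Int.le_of_dvd one_pos h1
      omega
    have hkk : k - 1 ≠ k' - 1 := by
      intro h0
      have h1 : k' - k = 0 := by omega
      rw [h1, mul_zero] at hrel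
      rcases mul_eq_zero.1 hrel with h1 | h1
      · exact hJ0 h1
      · rcases mul_eq_zero.1 h1 with h2 | h2
        · exact om0 _ h2
        · exact om0 _ h2
    have e4 : |J| * (|(p : ℤ) * (k - 1) + 1| * |(p : ℤ) * (k' - 1) + 1|) =
        |D| * |w v * w v'| * |(k - 1) - (k' - 1)| := by
      rw [← abs_mul, ← abs_mul, hrel, abs_mul, abs_mul, abs_sub_comm k' k]
      congr 2
      ring
    have h3 := kk1 hp2 hk1 hk1'
    have hkpos : 0 < |(k - 1) - (k' - 1)| := abs_pos.2 (sub_ne_zero.2 hkk)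
    have h4 : |J| * (p ^ 2 - 1) ≤ 2 * (|D| * |w v * w v'|) := by
      have h5 : |J| * (p ^ 2 - 1) * |(k - 1) - (k' - 1)| ≤
          2 * (|D| * |w v * w v'|) * |(k - 1) - (k' - 1)| := by
        calc |J| * (p ^ 2 - 1) * |(k - 1) - (k' - 1)| =
              |J| * (|(k - 1) - (k' - 1)| * (p ^ 2 - 1)) := by ring
          _ ≤ |J| * (2 * (|(p : ℤ) * (k - 1) + 1| * |(p : ℤ) * (k' - 1) + 1|)) :=
              mul_le_mul_of_nonneg_left h3 (abs_nonneg J)
          _ = 2 * (|J| * (|(p : ℤ) * (k - 1) + 1| * |(p : ℤ) * (k' - 1) + 1|)) := by ring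
          _ = _ := by rw [e4]; ring
      exact le_of_mul_le_mul_right h5 hkpos
    have hD0 : 0 ≤ |D| := abs_nonneg D
    have h6 : 2 * (|D| * |w v * w v'|) ≤ |D| * (p - 1) := by
      have : |D| * (2 * |w v * w v'|) ≤ |D| * (p - 1) :=
        mul_le_mul_of_nonneg_left (by linarith) hD0
      linarith
    have h7 : |J| * (p + 1) ≤ |D| := by
      have h8 : (|J| * (p + 1)) * (p - 1) ≤ |D| * (p - 1) := by
        have : |J| * (p ^ 2 - 1) = (|J| * (p + 1)) * (p - 1) := by ring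
        linarith
      exact le_of_mul_le_mul_right h8 (by omega)
    have h9 : ((p : ℤ) + 1) * (p + 1) ≤ 2 * |J| * (p + 1) :=
      mul_le_mul_of_nonneg_right hJ (by omega)
    nlinarith
  obtain ⟨v0, hv0⟩ := hne
  have h1 : w v0 = N * d v0 := by
    calc w v0 = w v0 * ∑ v ∈ S, w v * (d v : ℤ) := by rw [h.dim, mul_one]
      _ = ∑ v ∈ S, w v * (w v0 * d v) := by
          rw [Finset.mul_sum]
          exact Finset.sum_congr rfl fun v _ => by ring
      _ = ∑ v ∈ S, w v * (w v * d v0) :=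
          Finset.sum_congr rfl fun v hv => by rw [hprop v hv v0 hv0]
      _ = (∑ v ∈ S, w v ^ 2) * d v0 := by
          rw [Finset.sum_mul]
          exact Finset.sum_congr rfl fun v _ => by ring
      _ = N * d v0 := by rw [h.sq]
  have h2 : w v0 ^ 2 ≤ N := by
    rw [← h.sq]
    exact Finset.single_le_sum (f := fun v => w v ^ 2) (fun i _ => sq_nonneg _) hv0
  have h3 : (1 : ℤ) ≤ d v0 := by exact_mod_cast (h.d1 v0 hv0).le
  have h4 : (2 : ℤ) ≤ N := by omega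
  have h5 : (N : ℤ) ≤ w v0 := by
    rw [h1]
    nlinarith
  nlinarith

/-- Not more than two elements: `g ≥ 2`. -/
theorem Gm2.N3 (h : Gm2 p m N g D S w d yW dW) : 3 ≤ N := by
  classical
  by_contra hlt
  push Not at hlt
  have hg : (2 : ℤ) ≤ g := by exact_mod_cast h.g2
  have hpN : (p : ℤ) = 1 + N * g := by exact_mod_cast h.pN
  have hp2 := h.prime.two_le
  have hy0 : yW ≠ 0 := by
    rintro rfl
    have h1 := h.sq
    have h2 : (g : ℤ) ∣ 1 := ⟨∑ v ∈ S, w v ^ 2 + 1 - N, by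
      rw [hpN] at h1
      linear_combination (-1 : ℤ) * h1⟩
    have := Int.le_of_dvd one_pos h2
    omega
  have hy1 : 1 ≤ yW ^ 2 := by
    have := sq_nonneg yW
    have h2 : yW ^ 2 ≠ 0 := pow_ne_zero 2 hy0
    omega
  have hsum : ∑ v ∈ S, w v ^ 2 ≤ N - 1 := by
    have h1 := h.sq
    have h2 : g * ∑ v ∈ S, w v ^ 2 ≤ g * (N - 1 : ℤ) := by
      rw [hpN] at h1
      nlinarith
    exact le_of_mul_le_mul_left h2 (by omega)
  have hc := (card_le h.w0).trans hsum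
  have hc1 : S.card ≤ 1 := by omega
  have hc2 : S = ∅ ∨ ∃ v, S = {v} := by
    rcases Nat.le_one_iff_eq_zero_or_eq_one.1 hc1 with h0 | h0
    · exact Or.inl (Finset.card_eq_zero.1 h0)
    · exact Or.inr (Finset.card_eq_one.1 h0)
  rcases hc2 with h0 | ⟨v, h0⟩
  · have h1 := h.dim
    rw [h0, Finset.sum_empty, add_zero] at h1
    have h2 : (dW : ℤ) ∣ 1 := ⟨yW, by rw [mul_comm]; exact h1.symm⟩
    have h3 := Int.le_of_dvd one_pos h2
    have h4 := h.dW1
    omega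
  · have h1 := h.dim
    rw [h0, Finset.sum_singleton] at h1
    have h2 := h.gcdW v (by rw [h0]; exact Finset.mem_singleton_self v)
    have h3 : ((Nat.gcd (d v) dW : ℕ) : ℤ) ∣ 1 := by
      rw [← h1]
      exact dvd_add (Dvd.dvd.mul_left (Int.natCast_dvd_natCast.2 (Nat.gcd_dvd_right _ _)) _)
        (Dvd.dvd.mul_left (Int.natCast_dvd_natCast.2 (Nat.gcd_dvd_left _ _)) _)
    have h4 := Int.le_of_dvd one_pos h3
    obtain ⟨r, hr⟩ := h.odd
    omega

/-- Not more than two elements: `g = 1`. -/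
theorem Gm1.N3 (h : Gm1 p m N D S w d) : 3 ≤ N := by
  classical
  by_contra hlt
  push Not at hlt
  have hp2 := h.prime.two_le
  obtain ⟨r, hr⟩ := h.odd
  have hp3 : 3 ≤ p := by omega
  have hc := card_le h.w0
  rw [h.sq] at hc
  have hc2 : S.card ≤ 2 := by omega
  have h1 := h.dim
  have hd1 := h.d1
  interval_cases hS : S.card
  · rw [Finset.card_eq_zero] at hS
    rw [hS, Finset.sum_empty] at h1
    exact absurd h1 (by norm_num)
  · obtain ⟨v, hv⟩ := Finset.card_eq_one.1 hS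
    rw [hv, Finset.sum_singleton] at h1
    have h2 : (d v : ℤ) ∣ 1 := ⟨w v, by rw [mul_comm]; exact h1.symm⟩
    have h3 := Int.le_of_dvd one_pos h2
    have h4 := h.d1 v (by rw [hv]; exact Finset.mem_singleton_self v)
    omega
  · obtain ⟨v, v', hne, hv⟩ := Finset.card_eq_two.1 hS
    rw [hv, Finset.sum_pair hne] at h1
    have h2 := h.gcd v (by rw [hv]; simp) v' (by rw [hv]; simp) hne
    have h3 : ((Nat.gcd (d v) (d v') : ℕ) : ℤ) ∣ 1 := by
      rw [← h1]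
      exact dvd_add (Dvd.dvd.mul_left (Int.natCast_dvd_natCast.2 (Nat.gcd_dvd_left _ _)) _)
        (Dvd.dvd.mul_left (Int.natCast_dvd_natCast.2 (Nat.gcd_dvd_right _ _)) _)
    have h4 := Int.le_of_dvd one_pos h3
    omega

/-- A divisor of `v ^ c * u ^ e * R` which is divisible neither by `v` nor by `u`. -/
theorem dvd_R {v u c e R G : ℕ} (hv : v.Prime) (hu : u.Prime)
    (hG : G ∣ v ^ c * u ^ e * R) (hGv : ¬ v ∣ G) (hGu : ¬ u ∣ G) : G ∣ R := by
  have h1 : Nat.Coprime G (v ^ c * u ^ e) :=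
    Nat.Coprime.mul_right (Nat.Coprime.pow_right c ((Nat.Prime.coprime_iff_not_dvd hv).2 hGv).symm)
      (Nat.Coprime.pow_right e ((Nat.Prime.coprime_iff_not_dvd hu).2 hGu).symm)
  exact h1.dvd_of_dvd_mul_left hG

/-- A large common divisor which is prime to `v` and `u`. -/
theorem Gm2.pairEx (h : Gm2 p m N g D S w d yW dW) (v u : ℕ) (hv : v.Prime) (hu : u.Prime) :
    ∃ s ∈ S, ∃ G : ℕ, G ∣ d s ∧ p < 2 * G ∧ ¬ v ∣ G ∧ ¬ u ∣ G := by
  classical
  -- an element not divisible by a prime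
  have hex : ∀ q : ℕ, q.Prime → (∃ k ∈ S, ¬ q ∣ d k) ∨ ¬ q ∣ dW := by
    intro q hq
    by_contra hall
    push Not at hall
    obtain ⟨h1, h2⟩ := hall
    have h3 : (q : ℤ) ∣ 1 := by
      rw [← h.dim]
      exact dvd_add (Dvd.dvd.mul_left (Int.natCast_dvd_natCast.2 h2) _)
        (Finset.dvd_sum fun k hk => Dvd.dvd.mul_left (Int.natCast_dvd_natCast.2 (h1 k hk)) _)
    have h4 := Int.le_of_dvd one_pos h3
    have := hq.two_le
    omega
  have hSne : S.Nonempty := by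
    rw [Finset.nonempty_iff_ne_empty]
    intro h0
    have h1 := h.dim
    rw [h0, Finset.sum_empty, add_zero] at h1
    have h2 : (dW : ℤ) ∣ 1 := ⟨yW, by rw [mul_comm]; exact h1.symm⟩
    have h3 := Int.le_of_dvd one_pos h2
    have h4 := h.dW1
    omega
  have key : ∀ k ∈ S, (¬ v ∣ d k ∨ ¬ v ∣ dW) → (¬ u ∣ d k ∨ ¬ u ∣ dW) →
      ∃ s ∈ S, ∃ G : ℕ, G ∣ d s ∧ p < 2 * G ∧ ¬ v ∣ G ∧ ¬ u ∣ G := by
    intro k hk h1 h2
    refine ⟨k, hk, Nat.gcd (d k) dW, Nat.gcd_dvd_left _ _, h.gcdW k hk, fun h3 => ?_, fun h3 => ?_⟩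
    · rcases h1 with h1 | h1
      · exact h1 (h3.trans (Nat.gcd_dvd_left _ _))
      · exact h1 (h3.trans (Nat.gcd_dvd_right _ _))
    · rcases h2 with h2 | h2
      · exact h2 (h3.trans (Nat.gcd_dvd_left _ _))
      · exact h2 (h3.trans (Nat.gcd_dvd_right _ _))
  rcases hex v hv with ⟨k, hk, hkv⟩ | hWv
  · rcases hex u hu with ⟨l, hl, hlu⟩ | hWu
    · by_cases hkl : k = l
      · subst hkl
        exact key k hk (Or.inl hkv) (Or.inl hlu)
      · exact ⟨k, hk, Nat.gcd (d k) (d l), Nat.gcd_dvd_left _ _, h.gcd k hk l hl hkl,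
          fun h3 => hkv (h3.trans (Nat.gcd_dvd_left _ _)),
          fun h3 => hlu (h3.trans (Nat.gcd_dvd_right _ _))⟩
    · exact key k hk (Or.inl hkv) (Or.inr hWu)
  · rcases hex u hu with ⟨l, hl, hlu⟩ | hWu
    · exact key l hl (Or.inr hWv) (Or.inl hlu)
    · obtain ⟨k, hk⟩ := hSne
      exact key k hk (Or.inr hWv) (Or.inr hWu)

theorem Gm1.pairEx (h : Gm1 p m N D S w d) (v u : ℕ) (hv : v.Prime) (hu : u.Prime) :
    ∃ s ∈ S, ∃ G : ℕ, G ∣ d s ∧ p < 2 * G ∧ ¬ v ∣ G ∧ ¬ u ∣ G := by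
  classical
  have hex : ∀ q : ℕ, q.Prime → ∃ k ∈ S, ¬ q ∣ d k := by
    intro q hq
    by_contra hall
    push Not at hall
    have h3 : (q : ℤ) ∣ 1 := by
      rw [← h.dim]
      exact Finset.dvd_sum fun k hk => Dvd.dvd.mul_left (Int.natCast_dvd_natCast.2 (hall k hk)) _
    have h4 := Int.le_of_dvd one_pos h3
    have := hq.two_le
    omega
  have hfin : ∀ k ∈ S, ∀ l ∈ S, k ≠ l → (¬ v ∣ d k ∨ ¬ v ∣ d l) → (¬ u ∣ d k ∨ ¬ u ∣ d l) →
      ∃ s ∈ S, ∃ G : ℕ, G ∣ d s ∧ p < 2 * G ∧ ¬ v ∣ G ∧ ¬ u ∣ G := by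
    intro k hk l hl hkl h1 h2
    refine ⟨k, hk, Nat.gcd (d k) (d l), Nat.gcd_dvd_left _ _, h.gcd k hk l hl hkl,
      fun h3 => ?_, fun h3 => ?_⟩
    · rcases h1 with h1 | h1
      · exact h1 (h3.trans (Nat.gcd_dvd_left _ _))
      · exact h1 (h3.trans (Nat.gcd_dvd_right _ _))
    · rcases h2 with h2 | h2
      · exact h2 (h3.trans (Nat.gcd_dvd_left _ _))
      · exact h2 (h3.trans (Nat.gcd_dvd_right _ _))
  obtain ⟨k, hk, hkv⟩ := hex v hv
  obtain ⟨l, hl, hlu⟩ := hex u hu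
  by_cases hkl : k = l
  · subst hkl
    by_cases hall : ∀ l ∈ S, l = k
    · have h1 := h.dim
      have hS : S = {k} := by
        ext i
        rw [Finset.mem_singleton]
        exact ⟨hall i, fun h0 => by rw [h0]; exact hk⟩
      rw [hS, Finset.sum_singleton] at h1
      have h2 : (d k : ℤ) ∣ 1 := ⟨w k, by rw [mul_comm]; exact h1.symm⟩
      have h3 := Int.le_of_dvd one_pos h2
      have h4 := h.d1 k hk
      omega
    · push Not at hall
      obtain ⟨l, hl', hlk⟩ := hall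
      exact hfin k hk l hl' (fun h0 => hlk h0.symm) (Or.inl hkv) (Or.inl hlu)
  · exact hfin k hk l hl hkl (Or.inl hkv) (Or.inr hlu)

theorem Gm2.sum_le (h : Gm2 p m N g D S w d yW dW) : ∑ v ∈ S, w v ^ 2 ≤ N := by
  have hg : (2 : ℤ) ≤ g := by exact_mod_cast h.g2
  have hpN : (p : ℤ) = 1 + N * g := by exact_mod_cast h.pN
  have h1 := h.sq
  have h3 := sq_nonneg yW
  have h2 : g * ∑ v ∈ S, w v ^ 2 ≤ g * (N : ℤ) := by
    rw [hpN] at h1
    nlinarith
  exact le_of_mul_le_mul_left h2 (by omega)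

theorem Gm.fin (h : Gm p m N D S w d) (h3 : 3 ≤ N) (hN : N ∣ p - 1)
    (hD : ((p : ℤ) + 1) ^ 2 ≤ 2 * |D|) (hs : ∑ v ∈ S, w v ^ 2 ≤ N)
    (hT : ∀ v u : ℕ, v.Prime → u.Prime →
      ∃ s ∈ S, ∃ G : ℕ, G ∣ d s ∧ p < 2 * G ∧ ¬ v ∣ G ∧ ¬ u ∣ G) :
    Conc p m := by
  refine ⟨N, D.natAbs, h3, hN, ?_, ?_, ?_, ?_⟩
  · exact Int.natCast_dvd_natCast.1 (by rw [Int.natCast_natAbs, abs_dvd]; exact h.Dm)
  · have h1 : ((D.natAbs : ℕ) : ℤ) = |D| := Int.natCast_natAbs D
    have h2 : ((p : ℤ) + 1) ^ 2 ≤ 2 * ((D.natAbs : ℕ) : ℤ) := by rw [h1]; exact hD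
    exact_mod_cast h2
  · rcases Int.natAbs_eq D with h1 | h1
    · left
      rw [← h1]
      exact h.DN
    · right
      have h2 := h.DN
      rw [h1] at h2
      have h4 : ((D.natAbs : ℕ) : ℤ) + N = -(-((D.natAbs : ℕ) : ℤ) - N) := by ring
      rw [h4]
      exact (dvd_neg).2 h2
  · intro v u c e R hv hu hR
    obtain ⟨s, hs1, G, hG, hpG, hGv, hGu⟩ := hT v u hv hu
    constructor
    · intro hm
      have h1 := Nat.le_of_dvd hR (dvd_R hv hu ((hG.trans (h.dm s hs1)).trans hm) hGv hGu)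
      omega
    · intro hA
      obtain ⟨k, hk⟩ := h.om s hs1
      have h1 : d s ∣ D.natAbs * (w s).natAbs := by
        rw [← Int.natAbs_mul, ← hk, Int.natAbs_mul, Int.natAbs_natCast]
        exact dvd_mul_left _ _
      have h2 : G ∣ v ^ c * u ^ e * (R * (w s).natAbs) := by
        rw [← mul_assoc]
        exact (hG.trans h1).trans (mul_dvd_mul_right hA _)
      have h3 := dvd_R hv hu h2 hGv hGu
      have hw : 0 < (w s).natAbs := Int.natAbs_pos.2 (h.w0 s hs1)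
      have h4 := Nat.le_of_dvd (Nat.mul_pos hR hw) h3
      have h5 : p ≤ 2 * (R * (w s).natAbs) := by omega
      have h6 : (w s).natAbs ^ 2 ≤ N := by
        have h7 : w s ^ 2 ≤ N :=
          (Finset.single_le_sum (f := fun v => w v ^ 2) (fun i _ => sq_nonneg _) hs1).trans hs
        have h8 : (((w s).natAbs ^ 2 : ℕ) : ℤ) = w s ^ 2 := by
          push_cast
          exact sq_abs _
        exact_mod_cast h8 ▸ h7
      calc p ^ 2 ≤ (2 * (R * (w s).natAbs)) ^ 2 := Nat.pow_le_pow_left h5 2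
        _ = 4 * (w s).natAbs ^ 2 * R ^ 2 := by ring
        _ ≤ 4 * N * R ^ 2 := Nat.mul_le_mul_right _ (Nat.mul_le_mul_left 4 h6)

/-- **Theorem.**  The numbers, `g ≥ 2`. -/
theorem num2 (h : Gm2 p m N g D S w d yW dW) : Conc p m :=
  h.toGm.fin h.N3 ⟨g, by have := h.pN; omega⟩ h.big h.sum_le h.pairEx

/-- **Theorem.**  The numbers, `g = 1`. -/
theorem num1 (h : Gm1 p m N D S w d) : Conc p m :=
  h.toGm.fin h.N3 ⟨1, by have := h.pN; omega⟩ h.big h.sq.le h.pairEx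

end

end Pool.Agent.Helper52.PN
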