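import Pool.Agent.Helper52.PN.Prog

/-! # Project PN (MP_2b6189_al): a verified search, the numbers from 0 to 8000 -/

set_option autoImplicit false
set_option maxRecDepth 100000

namespace Pool.Agent.Helper52.PN.Sr

theorem b_0 : okb 0 500 = true := by decide +kernel
theorem b_500 : okb 500 500 = true := by decide +kernel
theorem b_1000 : okb 1000 500 = true := by decide +kernel
theorem b_1500 : okb 1500 500 = true := by decide +kernel
theorem b_2000 : okb 2000 500 = true := by decide +kernel
theorem b_2500 : okb 2500 500 = true := by decide +kernel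
theorem b_3000 : okb 3000 500 = true := by decide +kernel
theorem b_3500 : okb 3500 500 = true := by decide +kernel
theorem b_4000 : okb 4000 500 = true := by decide +kernel
theorem b_4500 : okb 4500 500 = true := by decide +kernel
theorem b_5000 : okb 5000 500 = true := by decide +kernel
theorem b_5500 : okb 5500 500 = true := by decide +kernel
theorem b_6000 : okb 6000 500 = true := by decide +kernel
theorem b_6500 : okb 6500 500 = true := by decide +kernel
theorem b_7000 : okb 7000 500 = true := by decide +kernel
theorem b_7500 : okb 7500 500 = true := by decide +kernel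

theorem blk_0 (n : ℕ) (h1 : 0 ≤ n) (h2 : n < 8000) : okn n = true := by
  rcases Nat.lt_or_ge n 500 with h | h
  · exact okb_spec 0 500 n b_0 (by omega) (by omega)
  rcases Nat.lt_or_ge n 1000 with h | h
  · exact okb_spec 500 500 n b_500 (by omega) (by omega)
  rcases Nat.lt_or_ge n 1500 with h | h
  · exact okb_spec 1000 500 n b_1000 (by omega) (by omega)
  rcases Nat.lt_or_ge n 2000 with h | h
  · exact okb_spec 1500 500 n b_1500 (by omega) (by omega)
  rcases Nat.lt_or_ge n 2500 with h | h
  · exact okb_spec 2000 500 n b_2000 (by omega) (by omega)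
  rcases Nat.lt_or_ge n 3000 with h | h
  · exact okb_spec 2500 500 n b_2500 (by omega) (by omega)
  rcases Nat.lt_or_ge n 3500 with h | h
  · exact okb_spec 3000 500 n b_3000 (by omega) (by omega)
  rcases Nat.lt_or_ge n 4000 with h | h
  · exact okb_spec 3500 500 n b_3500 (by omega) (by omega)
  rcases Nat.lt_or_ge n 4500 with h | h
  · exact okb_spec 4000 500 n b_4000 (by omega) (by omega)
  rcases Nat.lt_or_ge n 5000 with h | h
  · exact okb_spec 4500 500 n b_4500 (by omega) (by omega)
  rcases Nat.lt_or_ge n 5500 with h | h
  · exact okb_spec 5000 500 n b_5000 (by omega) (by omega)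
  rcases Nat.lt_or_ge n 6000 with h | h
  · exact okb_spec 5500 500 n b_5500 (by omega) (by omega)
  rcases Nat.lt_or_ge n 6500 with h | h
  · exact okb_spec 6000 500 n b_6000 (by omega) (by omega)
  rcases Nat.lt_or_ge n 7000 with h | h
  · exact okb_spec 6500 500 n b_6500 (by omega) (by omega)
  rcases Nat.lt_or_ge n 7500 with h | h
  · exact okb_spec 7000 500 n b_7000 (by omega) (by omega)
  exact okb_spec 7500 500 n b_7500 (by omega) (by omega)

end Pool.Agent.Helper52.PN.Sr
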