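import Pool.Agent.Helper52.PN.Prog

/-! # Project PN (MP_2b6189_al): a verified search, the numbers from 8000 to 14000 -/

set_option autoImplicit false
set_option maxRecDepth 100000

namespace Pool.Agent.Helper52.PN.Sr

theorem b_8000 : okb 8000 500 = true := by decide +kernel
theorem b_8500 : okb 8500 500 = true := by decide +kernel
theorem b_9000 : okb 9000 500 = true := by decide +kernel
theorem b_9500 : okb 9500 500 = true := by decide +kernel
theorem b_10000 : okb 10000 500 = true := by decide +kernel
theorem b_10500 : okb 10500 500 = true := by decide +kernel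
theorem b_11000 : okb 11000 500 = true := by decide +kernel
theorem b_11500 : okb 11500 500 = true := by decide +kernel
theorem b_12000 : okb 12000 500 = true := by decide +kernel
theorem b_12500 : okb 12500 500 = true := by decide +kernel
theorem b_13000 : okb 13000 500 = true := by decide +kernel
theorem b_13500 : okb 13500 500 = true := by decide +kernel

theorem blk_1 (n : ℕ) (h1 : 8000 ≤ n) (h2 : n < 14000) : okn n = true := by
  rcases Nat.lt_or_ge n 8500 with h | h
  · exact okb_spec 8000 500 n b_8000 (by omega) (by omega)
  rcases Nat.lt_or_ge n 9000 with h | h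
  · exact okb_spec 8500 500 n b_8500 (by omega) (by omega)
  rcases Nat.lt_or_ge n 9500 with h | h
  · exact okb_spec 9000 500 n b_9000 (by omega) (by omega)
  rcases Nat.lt_or_ge n 10000 with h | h
  · exact okb_spec 9500 500 n b_9500 (by omega) (by omega)
  rcases Nat.lt_or_ge n 10500 with h | h
  · exact okb_spec 10000 500 n b_10000 (by omega) (by omega)
  rcases Nat.lt_or_ge n 11000 with h | h
  · exact okb_spec 10500 500 n b_10500 (by omega) (by omega)
  rcases Nat.lt_or_ge n 11500 with h | h
  · exact okb_spec 11000 500 n b_11000 (by omega) (by omega)
  rcases Nat.lt_or_ge n 12000 with h | h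
  · exact okb_spec 11500 500 n b_11500 (by omega) (by omega)
  rcases Nat.lt_or_ge n 12500 with h | h
  · exact okb_spec 12000 500 n b_12000 (by omega) (by omega)
  rcases Nat.lt_or_ge n 13000 with h | h
  · exact okb_spec 12500 500 n b_12500 (by omega) (by omega)
  rcases Nat.lt_or_ge n 13500 with h | h
  · exact okb_spec 13000 500 n b_13000 (by omega) (by omega)
  exact okb_spec 13500 500 n b_13500 (by omega) (by omega)

end Pool.Agent.Helper52.PN.Sr
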