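import Pool.Agent.Helper52.PN.Prog

/-! # Project PN (MP_2b6189_al): a verified search, the numbers from 14000 to 19000 -/

set_option autoImplicit false
set_option maxRecDepth 100000

namespace Pool.Agent.Helper52.PN.Sr

theorem b_14000 : okb 14000 500 = true := by decide +kernel
theorem b_14500 : okb 14500 500 = true := by decide +kernel
theorem b_15000 : okb 15000 500 = true := by decide +kernel
theorem b_15500 : okb 15500 500 = true := by decide +kernel
theorem b_16000 : okb 16000 500 = true := by decide +kernel
theorem b_16500 : okb 16500 500 = true := by decide +kernel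
theorem b_17000 : okb 17000 500 = true := by decide +kernel
theorem b_17500 : okb 17500 500 = true := by decide +kernel
theorem b_18000 : okb 18000 500 = true := by decide +kernel
theorem b_18500 : okb 18500 500 = true := by decide +kernel

theorem blk_2 (n : ℕ) (h1 : 14000 ≤ n) (h2 : n < 19000) : okn n = true := by
  rcases Nat.lt_or_ge n 14500 with h | h
  · exact okb_spec 14000 500 n b_14000 (by omega) (by omega)
  rcases Nat.lt_or_ge n 15000 with h | h
  · exact okb_spec 14500 500 n b_14500 (by omega) (by omega)
  rcases Nat.lt_or_ge n 15500 with h | h
  · exact okb_spec 15000 500 n b_15000 (by omega) (by omega)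
  rcases Nat.lt_or_ge n 16000 with h | h
  · exact okb_spec 15500 500 n b_15500 (by omega) (by omega)
  rcases Nat.lt_or_ge n 16500 with h | h
  · exact okb_spec 16000 500 n b_16000 (by omega) (by omega)
  rcases Nat.lt_or_ge n 17000 with h | h
  · exact okb_spec 16500 500 n b_16500 (by omega) (by omega)
  rcases Nat.lt_or_ge n 17500 with h | h
  · exact okb_spec 17000 500 n b_17000 (by omega) (by omega)
  rcases Nat.lt_or_ge n 18000 with h | h
  · exact okb_spec 17500 500 n b_17500 (by omega) (by omega)
  rcases Nat.lt_or_ge n 18500 with h | h
  · exact okb_spec 18000 500 n b_18000 (by omega) (by omega)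
  exact okb_spec 18500 500 n b_18500 (by omega) (by omega)

end Pool.Agent.Helper52.PN.Sr
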