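import Pool.Agent.Helper52.PN.Prog

/-! # Project PN (MP_2b6189_al): a verified search, the numbers from 19000 to 22680 -/

set_option autoImplicit false
set_option maxRecDepth 100000

namespace Pool.Agent.Helper52.PN.Sr

theorem b_19000 : okb 19000 500 = true := by decide +kernel
theorem b_19500 : okb 19500 500 = true := by decide +kernel
theorem b_20000 : okb 20000 500 = true := by decide +kernel
theorem b_20500 : okb 20500 500 = true := by decide +kernel
theorem b_21000 : okb 21000 500 = true := by decide +kernel
theorem b_21500 : okb 21500 500 = true := by decide +kernel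
theorem b_22000 : okb 22000 500 = true := by decide +kernel
theorem b_22500 : okb 22500 180 = true := by decide +kernel

theorem blk_3 (n : ℕ) (h1 : 19000 ≤ n) (h2 : n < 22680) : okn n = true := by
  rcases Nat.lt_or_ge n 19500 with h | h
  · exact okb_spec 19000 500 n b_19000 (by omega) (by omega)
  rcases Nat.lt_or_ge n 20000 with h | h
  · exact okb_spec 19500 500 n b_19500 (by omega) (by omega)
  rcases Nat.lt_or_ge n 20500 with h | h
  · exact okb_spec 20000 500 n b_20000 (by omega) (by omega)
  rcases Nat.lt_or_ge n 21000 with h | h
  · exact okb_spec 20500 500 n b_20500 (by omega) (by omega)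
  rcases Nat.lt_or_ge n 21500 with h | h
  · exact okb_spec 21000 500 n b_21000 (by omega) (by omega)
  rcases Nat.lt_or_ge n 22000 with h | h
  · exact okb_spec 21500 500 n b_21500 (by omega) (by omega)
  rcases Nat.lt_or_ge n 22500 with h | h
  · exact okb_spec 22000 500 n b_22000 (by omega) (by omega)
  exact okb_spec 22500 180 n b_22500 (by omega) (by omega)

end Pool.Agent.Helper52.PN.Sr
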