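import Pool.Agent.Helper52.PN.Search

/-! # Project PN (MP_2b6189_al): a verified search, divisors, candidates, the test of one number -/

set_option autoImplicit false

namespace Pool.Agent.Helper52.PN.Sr

/-- divisors of `m` (those at most `k`, and the complementary ones which exceed `s`) -/
def divs (m s : ℕ) : ℕ → List ℕ
  | 0 => []
  | k + 1 =>
    match Nat.beq (m % (k + 1)) 0, Nat.ble (s + 1) (m / (k + 1)) with
    | true, true => (k + 1) :: (m / (k + 1)) :: divs m s k
    | true, false => (k + 1) :: divs m s k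
    | false, _ => divs m s k

theorem mem_divs_aux (m s k d : ℕ) (hd : d ∣ m) (h0 : 0 < d) (hk : d ≤ k) :
    d ∈ divs m s k ∧ (s < m / d → m / d ∈ divs m s k) := by
  induction k with
  | zero => omega
  | succ k ih =>
    rw [divs]
    rcases Nat.lt_or_ge k d with h | h
    · obtain rfl : d = k + 1 := by omega
      have e1 : Nat.beq (m % (k + 1)) 0 = true := by
        rw [Nat.mod_eq_zero_of_dvd hd]; rfl
      rcases hb : Nat.ble (s + 1) (m / (k + 1)) with _ | _
      · rw [e1]
        refine ⟨List.mem_cons_self .., fun h1 => ?_⟩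
        exfalso
        have : Nat.ble (s + 1) (m / (k + 1)) = true := by
          rw [Nat.ble_eq]
          exact h1
        rw [this] at hb
        cases hb
      · rw [e1]
        exact ⟨List.mem_cons_self .., fun _ => List.mem_cons_of_mem _ (List.mem_cons_self ..)⟩
    · obtain ⟨i1, i2⟩ := ih h
      rcases Nat.beq (m % (k + 1)) 0 with _ | _ <;>
        rcases Nat.ble (s + 1) (m / (k + 1)) with _ | _
      · exact ⟨i1, i2⟩
      · exact ⟨i1, i2⟩
      · exact ⟨List.mem_cons_of_mem _ i1, fun h => List.mem_cons_of_mem _ (i2 h)⟩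
      · exact ⟨List.mem_cons_of_mem _ (List.mem_cons_of_mem _ i1),
          fun h => List.mem_cons_of_mem _ (List.mem_cons_of_mem _ (i2 h))⟩

theorem mem_divs (m s d : ℕ) (hd : d ∣ m) (hm : 0 < m) (hs : m < (s + 1) ^ 2) :
    d ∈ divs m s s := by
  have h0 : 0 < d := Nat.pos_of_dvd_of_pos hd hm
  rcases Nat.lt_or_ge s d with h | h
  · obtain ⟨c, hc⟩ := hd
    have hc0 : 0 < c := by
      rcases Nat.eq_zero_or_pos c with rfl | h1
      · omega
      · exact h1
    have h1 : c ≤ s := by
      by_contra h2
      have h3 : (s + 1) * (s + 1) ≤ d * c := Nat.mul_le_mul (by omega) (by omega)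
      rw [← hc] at h3
      nlinarith
    have h2 := (mem_divs_aux m s s c ⟨d, by rw [hc, mul_comm]⟩ hc0 h1).2
    have h3 : m / c = d := by
      rw [hc]
      exact Nat.mul_div_cancel _ hc0
    rw [h3] at h2
    exact h2 h
  · exact (mem_divs_aux m s s d hd h0 h).1

/-- add an element under a condition -/
def addc (c : Bool) (x : E) (l : List E) : List E :=
  match c with
  | true => x :: l
  | false => l

theorem mem_addc {c : Bool} {x : E} {l : List E} (h : c = true) : x ∈ addc c x l := by
  rw [h]
  exact List.mem_cons_self ..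

theorem mem_addc' {c : Bool} {x y : E} {l : List E} (h : y ∈ l) : y ∈ addc c x l := by
  rcases c with _ | _
  · exact h
  · exact List.mem_cons_of_mem _ h

/-- the candidates with `d = -w` modulo `p`, `w ^ 2 ≤ B`, `d ∣ A w` -/
def regs (p B A : ℕ) : List ℕ → List E
  | [] => []
  | d :: t =>
    match Nat.ble d 1 with
    | true => regs p B A t
    | false =>
      addc (Nat.ble ((d % p) * (d % p)) B && Nat.beq ((A * (d % p)) % d) 0) (false, d % p, d)
        (addc (Nat.ble ((p - d % p) * (p - d % p)) B && Nat.beq ((A * (p - d % p)) % d) 0)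
          (true, p - d % p, d) (regs p B A t))

/-- the condition for an exceptional element -/
def sc (p g A r d : ℕ) : Bool :=
  Nat.ble (r * r) (p - g) && (Nat.beq ((p - g - r * r) % g) 0 && Nat.beq ((A * r) % d) 0)

/-- the candidates for the exceptional element -/
def specs (p g A : ℕ) : List ℕ → List E
  | [] => []
  | d :: t =>
    match Nat.ble d 1 with
    | true => specs p g A t
    | false =>
      addc (sc p g A ((g * d) % p) d) (false, (g * d) % p, d)
        (addc (sc p g A (p - (g * d) % p) d) (true, p - (g * d) % p, d) (specs p g A t))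

theorem mem_regs (p B A : ℕ) (D : List ℕ) (d : ℕ) (hd : d ∈ D) (h1 : 1 < d) :
    ((d % p) * (d % p) ≤ B → d ∣ A * (d % p) → (false, d % p, d) ∈ regs p B A D) ∧
    ((p - d % p) * (p - d % p) ≤ B → d ∣ A * (p - d % p) →
      (true, p - d % p, d) ∈ regs p B A D) := by
  induction D with
  | nil => simp at hd
  | cons e t ih =>
    rw [regs]
    rcases List.mem_cons.1 hd with rfl | hd
    · have hb : Nat.ble d 1 = false := by
        rcases hb : Nat.ble d 1 with _ | _
        · rfl
        · rw [Nat.ble_eq] at hb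
          omega
      rw [hb]
      refine ⟨fun h2 h3 => mem_addc ?_, fun h2 h3 => mem_addc' (mem_addc ?_)⟩
      · rw [Bool.and_eq_true, Nat.ble_eq, Nat.mod_eq_zero_of_dvd h3]
        exact ⟨h2, rfl⟩
      · rw [Bool.and_eq_true, Nat.ble_eq, Nat.mod_eq_zero_of_dvd h3]
        exact ⟨h2, rfl⟩
    · obtain ⟨i1, i2⟩ := ih hd
      rcases Nat.ble e 1 with _ | _
      · exact ⟨fun h2 h3 => mem_addc' (mem_addc' (i1 h2 h3)),
          fun h2 h3 => mem_addc' (mem_addc' (i2 h2 h3))⟩
      · exact ⟨i1, i2⟩

theorem mem_specs (p g A : ℕ) (D : List ℕ) (d : ℕ) (hd : d ∈ D) (h1 : 1 < d) :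
    (sc p g A ((g * d) % p) d = true → (false, (g * d) % p, d) ∈ specs p g A D) ∧
    (sc p g A (p - (g * d) % p) d = true → (true, p - (g * d) % p, d) ∈ specs p g A D) := by
  induction D with
  | nil => simp at hd
  | cons e t ih =>
    rw [specs]
    rcases List.mem_cons.1 hd with rfl | hd
    · have hb : Nat.ble d 1 = false := by
        rcases hb : Nat.ble d 1 with _ | _
        · rfl
        · rw [Nat.ble_eq] at hb
          omega
      rw [hb]
      exact ⟨fun h2 => mem_addc h2, fun h2 => mem_addc' (mem_addc h2)⟩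
    · obtain ⟨i1, i2⟩ := ih hd
      rcases Nat.ble e 1 with _ | _
      · exact ⟨fun h2 => mem_addc' (mem_addc' (i1 h2)), fun h2 => mem_addc' (mem_addc' (i2 h2))⟩
      · exact ⟨i1, i2⟩

/-- the test for one exceptional element -/
def tst (p g : ℕ) (R0 : List E) (x : E) : Bool :=
  match x.1 with
  | true => nx p 60 (R0.filter (cp p x)) x.2.2 ((p - g - x.2.1 * x.2.1) / g) (x.2.1 * x.2.2) 0
  | false => nx p 60 (R0.filter (cp p x)) x.2.2 ((p - g - x.2.1 * x.2.1) / g) 0 (x.2.1 * x.2.2)

/-- the test for one pair `N`, `A` -/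
def srch (p g A : ℕ) (D : List ℕ) : Bool :=
  (specs p g A D).all (tst p g (regs p ((p - g) / g) A D))

/-- there is no ghost tuple for the exact prime `p` of `p m` -/
def gf (p s m : ℕ) : Bool :=
  (divs (p - 1) 5 5).all fun N => Nat.ble N 2 || (divs m s s).all fun A =>
    Nat.ble (2 * A + 1) ((p + 1) * (p + 1)) ||
      ((!(Nat.beq ((A + (p - N)) % p) 0) && !(Nat.beq ((A + N) % p) 0)) ||
        srch p ((p - 1) / N) A (divs m s s))

/-- `p` divides `n` exactly once -/
def ex (n p : ℕ) : Bool := Nat.beq (n % p) 0 && !(Nat.beq (n % (p * p)) 0)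

/-- the primes with a bound for the square root -/
def ps : List (ℕ × ℕ) :=
  [(31, 27), (29, 27), (23, 31), (19, 34), (17, 36), (13, 41), (11, 45), (7, 56), (5, 67)]

/-- the test of `n` -/
def okn (n : ℕ) : Bool :=
  ex n 2 || (ex n 3 || (ex n 37 || (ps.any (fun q => ex n q.1 && gf q.1 q.2 (n / q.1)) ||
    ps.all (fun q => !(ex n q.1)))))

/-- the test of an interval -/
def okb (a : ℕ) : ℕ → Bool
  | 0 => true
  | k + 1 => okn (a + k) && okb a k

theorem okb_spec (a k n : ℕ) (h : okb a k = true) (h1 : a ≤ n) (h2 : n < a + k) :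
    okn n = true := by
  induction k with
  | zero => omega
  | succ k ih =>
    rw [okb, Bool.and_eq_true] at h
    rcases Nat.lt_or_ge n (a + k) with h3 | h3
    · exact ih h.2 h3
    · obtain rfl : n = a + k := by omega
      exact h.1

end Pool.Agent.Helper52.PN.Sr
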