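import Mathlib.Tactic
import Mathlib.Data.List.OfFn
import Mathlib.Algebra.BigOperators.Fin

/-! # Project PN (MP_2b6189_al): a verified search, the program and its soundness -/

set_option autoImplicit false

namespace Pool.Agent.Helper52.PN.Sr

/-- A signed pair: the sign (`true` is plus), the absolute value, the dimension. -/
abbrev E := Bool × ℕ × ℕ

/-- compatibility -/
def cp (p : ℕ) (x y : E) : Bool := Nat.ble (p + 1) (2 * Nat.gcd x.2.2 y.2.2)

/-- the common divisor of `G` and of the dimensions of a list -/
def gall : List E → ℕ → ℕ
  | [], G => G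
  | x :: t, G => gall t (Nat.gcd G x.2.2)

/-- no multiset of elements of the list completes the sum -/
def nx (p : ℕ) : ℕ → List E → ℕ → ℕ → ℕ → ℕ → Bool
  | 0, _, _, _, _, _ => false
  | _ + 1, [], _, R, sp, sn => !(Nat.beq R 0 && Nat.beq sp (sn + 1))
  | f + 1, x :: t, G, R, sp, sn =>
    match Nat.beq R 0 with
    | true => !(Nat.beq sp (sn + 1))
    | false =>
      Nat.ble 2 (gall (x :: t) G) ||
        (nx p f t G R sp sn &&
          (Nat.ble (R + 1) (x.2.1 * x.2.1) ||
            (match Nat.ble (p + 1) (2 * x.2.2), x.1 with
              | true, true => nx p f (x :: t.filter (cp p x)) (Nat.gcd G x.2.2)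
                  (R - x.2.1 * x.2.1) (sp + x.2.1 * x.2.2) sn
              | true, false => nx p f (x :: t.filter (cp p x)) (Nat.gcd G x.2.2)
                  (R - x.2.1 * x.2.1) sp (sn + x.2.1 * x.2.2)
              | false, true => nx p f (t.filter (cp p x)) (Nat.gcd G x.2.2)
                  (R - x.2.1 * x.2.1) (sp + x.2.1 * x.2.2) sn
              | false, false => nx p f (t.filter (cp p x)) (Nat.gcd G x.2.2)
                  (R - x.2.1 * x.2.1) sp (sn + x.2.1 * x.2.2))))

/-- the value of a pair -/
def val (x : E) : ℤ := (if x.1 then (x.2.1 : ℤ) else -(x.2.1 : ℤ)) * x.2.2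

theorem gall_dvd (l : List E) (G : ℕ) : gall l G ∣ G ∧ ∀ x ∈ l, gall l G ∣ x.2.2 := by
  induction l generalizing G with
  | nil => exact ⟨dvd_rfl, by simp⟩
  | cons x t ih =>
    obtain ⟨h1, h2⟩ := ih (Nat.gcd G x.2.2)
    refine ⟨h1.trans (Nat.gcd_dvd_left _ _), ?_⟩
    intro y hy
    rcases List.mem_cons.1 hy with rfl | hy
    · exact h1.trans (Nat.gcd_dvd_right _ _)
    · exact h2 y hy

theorem sum_dvd (q : ℤ) (M : List E) (h : ∀ x ∈ M, q ∣ val x) : q ∣ (M.map val).sum := by
  induction M with
  | nil => simp
  | cons x t ih =>
    rw [List.map_cons, List.sum_cons]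
    exact dvd_add (h x (List.mem_cons_self ..)) (ih fun y hy => h y (List.mem_cons_of_mem _ hy))

/-- the relation of compatibility -/
def Cmp (p : ℕ) (x y : E) : Prop := p < 2 * Nat.gcd x.2.2 y.2.2

theorem Cmp.symm {p : ℕ} {x y : E} (h : Cmp p x y) : Cmp p y x := by
  unfold Cmp at *
  rwa [Nat.gcd_comm]

theorem cp_iff {p : ℕ} {x y : E} : cp p x y = true ↔ Cmp p x y := by
  unfold cp Cmp
  rw [Nat.ble_eq]
  omega

theorem sq_sum_zero (M : List E) (h : ∀ x ∈ M, x.2.1 ≠ 0)
    (hs : (M.map fun x => x.2.1 * x.2.1).sum = 0) : M = [] := by
  cases M with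
  | nil => rfl
  | cons x t =>
    rw [List.map_cons, List.sum_cons] at hs
    have h1 := h x (List.mem_cons_self ..)
    have h2 : 0 < x.2.1 * x.2.1 := Nat.mul_pos (Nat.pos_of_ne_zero h1) (Nat.pos_of_ne_zero h1)
    omega

theorem nx_sound (p : ℕ) (f : ℕ) : ∀ (l : List E) (G R sp sn : ℕ),
    nx p f l G R sp sn = true → (G : ℤ) ∣ (sp : ℤ) - sn →
    ∀ M : List E, (∀ x ∈ M, x ∈ l) → M.Pairwise (Cmp p) → (∀ x ∈ M, x.2.1 ≠ 0) →
      (M.map fun x => x.2.1 * x.2.1).sum = R → (sp : ℤ) - sn + (M.map val).sum = 1 → False := by
  induction f with
  | zero =>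
    intro l G R sp sn h
    simp [nx] at h
  | succ f ih =>
    intro l G R sp sn h hG M hM hP h0 hR hS
    cases l with
    | nil =>
      have hM0 : M = [] := List.eq_nil_iff_forall_not_mem.2 fun x hx => by
        simpa using hM x hx
      subst hM0
      simp only [List.map_nil, List.sum_nil] at hR hS
      have h1 : Nat.beq R 0 = true := by rw [← hR]; rfl
      have h2 : Nat.beq sp (sn + 1) = true := by
        rw [Nat.beq_eq]
        omega
      simp [nx, h1, h2] at h
    | cons x t =>
      rw [nx] at h
      rcases hb : Nat.beq R 0 with _ | _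
      · rw [hb] at h
        simp only [Bool.or_eq_true, Bool.and_eq_true] at h
        rcases h with h | ⟨h1, h2⟩
        · -- a common divisor
          rw [Nat.ble_eq] at h
          obtain ⟨g1, g2⟩ := gall_dvd (x :: t) G
          have e1 : ((gall (x :: t) G : ℕ) : ℤ) ∣ (sp : ℤ) - sn :=
            (Int.natCast_dvd_natCast.2 g1).trans hG
          have e2 : ((gall (x :: t) G : ℕ) : ℤ) ∣ (M.map val).sum :=
            sum_dvd _ M fun y hy =>
              (Int.natCast_dvd_natCast.2 (g2 y (hM y hy))).trans (dvd_mul_left _ _)
          have e3 := dvd_add e1 e2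
          rw [hS] at e3
          have e4 : gall (x :: t) G = 1 := by
            have := Int.natAbs_dvd_natAbs.2 e3
            simpa using this
          omega
        · by_cases hx : x ∈ M
          · -- the element is used
            have hperm := List.perm_cons_erase hx
            have hP' : (x :: M.erase x).Pairwise (Cmp p) :=
              (hperm.pairwise_iff (fun {a b} h => Cmp.symm h)).1 hP
            rw [List.pairwise_cons] at hP'
            obtain ⟨hP1, hP2⟩ := hP'
            have hR' : x.2.1 * x.2.1 + ((M.erase x).map fun x => x.2.1 * x.2.1).sum = R := by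
              rw [← hR, (hperm.map fun x : E => x.2.1 * x.2.1).sum_eq, List.map_cons,
                List.sum_cons]
            have hS' : (sp : ℤ) - sn + (val x + ((M.erase x).map val).sum) = 1 := by
              rw [← hS, (hperm.map val).sum_eq, List.map_cons, List.sum_cons]
            have h0' : ∀ y ∈ M.erase x, y.2.1 ≠ 0 := fun y hy => h0 y (List.mem_of_mem_erase hy)
            have hGx : (Nat.gcd G x.2.2 : ℤ) ∣ (sp : ℤ) - sn :=
              (Int.natCast_dvd_natCast.2 (Nat.gcd_dvd_left _ _)).trans hG
            have hGx2 : (Nat.gcd G x.2.2 : ℤ) ∣ (x.2.1 : ℤ) * x.2.2 :=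
              (Int.natCast_dvd_natCast.2 (Nat.gcd_dvd_right _ _)).trans (dvd_mul_left _ _)
            have hnot : ¬ Nat.ble (R + 1) (x.2.1 * x.2.1) = true := by
              rw [Nat.ble_eq]
              omega
            have h3 := h2.resolve_left hnot
            have hmem1 : ∀ y ∈ M.erase x, y ∈ x :: t.filter (cp p x) := by
              intro y hy
              rcases List.mem_cons.1 (hM y (List.mem_of_mem_erase hy)) with rfl | hyt
              · exact List.mem_cons_self ..
              · exact List.mem_cons_of_mem _
                  (List.mem_filter.2 ⟨hyt, cp_iff.2 (hP1 y hy)⟩)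
            have hmem2 : Nat.ble (p + 1) (2 * x.2.2) = false →
                ∀ y ∈ M.erase x, y ∈ t.filter (cp p x) := by
              intro hb2 y hy
              rcases List.mem_cons.1 (hmem1 y hy) with rfl | h
              · exfalso
                have h4 := hP1 y hy
                unfold Cmp at h4
                rw [Nat.gcd_self] at h4
                have h5 : Nat.ble (p + 1) (2 * y.2.2) = true := by
                  rw [Nat.ble_eq]
                  omega
                rw [h5] at hb2
                cases hb2
              · exact h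
            have hRR : ((M.erase x).map fun x => x.2.1 * x.2.1).sum = R - x.2.1 * x.2.1 := by
              omega
            rcases hb2 : Nat.ble (p + 1) (2 * x.2.2) with _ | _ <;>
              rcases hb3 : x.1 with _ | _ <;> rw [hb2, hb3] at h3
            · refine ih _ _ _ _ _ h3 ?_ (M.erase x) (hmem2 hb2) hP2 h0' hRR ?_
              · have : ((sp : ℤ) - ((sn + x.2.1 * x.2.2 : ℕ) : ℤ)) =
                    ((sp : ℤ) - sn) - (x.2.1 : ℤ) * x.2.2 := by push_cast; ring
                rw [this]
                exact dvd_sub hGx hGx2
              · rw [← hS']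
                simp only [val, hb3]
                push_cast
                ring
            · refine ih _ _ _ _ _ h3 ?_ (M.erase x) (hmem2 hb2) hP2 h0' hRR ?_
              · have : (((sp + x.2.1 * x.2.2 : ℕ) : ℤ) - (sn : ℤ)) =
                    ((sp : ℤ) - sn) + (x.2.1 : ℤ) * x.2.2 := by push_cast; ring
                rw [this]
                exact dvd_add hGx hGx2
              · rw [← hS']
                simp only [val, hb3]
                push_cast
                ring
            · refine ih _ _ _ _ _ h3 ?_ (M.erase x) hmem1 hP2 h0' hRR ?_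
              · have : ((sp : ℤ) - ((sn + x.2.1 * x.2.2 : ℕ) : ℤ)) =
                    ((sp : ℤ) - sn) - (x.2.1 : ℤ) * x.2.2 := by push_cast; ring
                rw [this]
                exact dvd_sub hGx hGx2
              · rw [← hS']
                simp only [val, hb3]
                push_cast
                ring
            · refine ih _ _ _ _ _ h3 ?_ (M.erase x) hmem1 hP2 h0' hRR ?_
              · have : (((sp + x.2.1 * x.2.2 : ℕ) : ℤ) - (sn : ℤ)) =
                    ((sp : ℤ) - sn) + (x.2.1 : ℤ) * x.2.2 := by push_cast; ring
                rw [this]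
                exact dvd_add hGx hGx2
              · rw [← hS']
                simp only [val, hb3]
                push_cast
                ring
          · -- the element is not used
            refine ih _ _ _ _ _ h1 hG M ?_ hP h0 hR hS
            intro y hy
            rcases List.mem_cons.1 (hM y hy) with rfl | h
            · exact absurd hy hx
            · exact h
      · rw [hb] at h
        have hR0 : R = 0 := by simpa using Nat.eq_of_beq_eq_true hb
        have hM0 := sq_sum_zero M h0 (hR.trans hR0)
        subst hM0
        simp only [List.map_nil, List.sum_nil] at hS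
        have h2 : Nat.beq sp (sn + 1) = true := by
          rw [Nat.beq_eq]
          omega
        simp [h2] at h

end Pool.Agent.Helper52.PN.Sr
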