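import Pool.Agent.Helper52.PN.Sound
import Pool.Agent.Helper52.PN.Blk0
import Pool.Agent.Helper52.PN.Blk1
import Pool.Agent.Helper52.PN.Blk2
import Pool.Agent.Helper52.PN.Blk3

/-! # Project PN (MP_2b6189_al): no number below 22680 has only ghost primes -/

set_option autoImplicit false

namespace Pool.Agent.Helper52.PN

open Sr

theorem okn_all (n : ℕ) (hn : n < 22680) : okn n = true := by
  rcases Nat.lt_or_ge n 8000 with h | h
  · exact blk_0 n (by omega) h
  rcases Nat.lt_or_ge n 14000 with h' | h'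
  · exact blk_1 n h h'
  rcases Nat.lt_or_ge n 19000 with h'' | h''
  · exact blk_2 n h' h''
  · exact blk_3 n h'' hn

theorem ex_iff {n p : ℕ} : ex n p = true ↔ p ∣ n ∧ ¬ p * p ∣ n := by
  unfold ex
  rw [Bool.and_eq_true, Nat.beq_eq, Bool.not_eq_true', Nat.dvd_iff_mod_eq_zero,
    Nat.dvd_iff_mod_eq_zero]
  constructor
  · rintro ⟨h1, h2⟩
    refine ⟨h1, fun h3 => ?_⟩
    rw [h3] at h2
    cases h2
  · rintro ⟨h1, h2⟩
    refine ⟨h1, ?_⟩
    rcases hb : Nat.beq (n % (p * p)) 0 with _ | _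
    · rfl
    · exact absurd (Nat.eq_of_beq_eq_true hb) h2

/-- ghost primes are at least `5` and the dimension is large -/
theorem Gho.bound {p m : ℕ} (hp : p.Prime) (hm : 0 < m) (h : Gho p m) :
    4 ≤ p ∧ (p + 1) ^ 2 ≤ 2 * m := by
  obtain ⟨N, A, hN3, hNp, hAm, hA, -⟩ := h
  have h1 := Nat.le_of_dvd (by have := hp.two_le; omega) hNp
  have h2 := Nat.le_of_dvd hm hAm
  exact ⟨by omega, by omega⟩

/-- For every number below `22680` which is divisible by some prime exactly once there is such a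
prime which is not a ghost prime. -/
theorem small (n q : ℕ) (hn : n < 22680) (hq : q.Prime) (h1 : q ∣ n) (h2 : ¬ q * q ∣ n) :
    ∃ p m : ℕ, p.Prime ∧ n = p * m ∧ ¬ p ∣ m ∧ 0 < m ∧ ¬ Gho p m := by
  have hn0 : 0 < n := by
    rcases Nat.eq_zero_or_pos n with rfl | h
    · exact absurd (dvd_zero _) h2
    · exact h
  -- the choice of a prime which divides `n` exactly once
  have key : ∀ p : ℕ, p.Prime → p ∣ n → ¬ p * p ∣ n → (∀ m, n = p * m → 0 < m → ¬ Gho p m) →
      ∃ p m : ℕ, p.Prime ∧ n = p * m ∧ ¬ p ∣ m ∧ 0 < m ∧ ¬ Gho p m := by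
    intro p hp ha hb hc
    obtain ⟨m, hm⟩ := ha
    have hm0 : 0 < m := by
      rcases Nat.eq_zero_or_pos m with rfl | h
      · omega
      · exact h
    refine ⟨p, m, hp, hm, ?_, hm0, hc m hm hm0⟩
    rintro ⟨c, rfl⟩
    exact hb ⟨c, by rw [hm, mul_assoc]⟩
  -- large primes
  have big : ∀ p : ℕ, p.Prime → 37 ≤ p → ∀ m, n = p * m → 0 < m → ¬ Gho p m := by
    intro p hp h37 m hm hm0 hG
    have h3 := (Gho.bound hp hm0 hG).2
    have h4 : 37 * ((37 + 1) ^ 2) ≤ p * (2 * m) := Nat.mul_le_mul h37 (le_trans (by gcongr) h3)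
    have h5 : p * (2 * m) = 2 * n := by rw [hm]; ring
    omega
  have tiny : ∀ p : ℕ, p.Prime → p ≤ 3 → ∀ m, n = p * m → 0 < m → ¬ Gho p m := by
    intro p hp h3 m _ hm0 hG
    have := (Gho.bound hp hm0 hG).1
    omega
  have hok := okn_all n hn
  unfold okn at hok
  simp only [Bool.or_eq_true] at hok
  rcases hok with h | h | h | h | h
  · obtain ⟨a, b⟩ := ex_iff.1 h
    exact key 2 Nat.prime_two a b (tiny 2 Nat.prime_two (by omega))
  · obtain ⟨a, b⟩ := ex_iff.1 h
    exact key 3 Nat.prime_three a b (tiny 3 Nat.prime_three (by omega))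
  · obtain ⟨a, b⟩ := ex_iff.1 h
    exact key 37 (by norm_num) a b (big 37 (by norm_num) (by omega))
  · obtain ⟨x, hx, h3⟩ := List.any_eq_true.1 h
    rw [Bool.and_eq_true] at h3
    obtain ⟨a, b⟩ := ex_iff.1 h3.1
    have hx2 : x.1.Prime ∧ x.1 ≤ 36 ∧ 22680 ≤ x.1 * (x.2 + 1) ^ 2 := by
      unfold ps at hx
      simp only [List.mem_cons, List.not_mem_nil, or_false] at hx
      rcases hx with rfl | rfl | rfl | rfl | rfl | rfl | rfl | rfl | rfl <;> norm_num
    refine key x.1 hx2.1 a b fun m hm hm0 => ?_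
    have hdiv : n / x.1 = m := by
      rw [hm]
      exact Nat.mul_div_cancel_left m hx2.1.pos
    rw [hdiv] at h3
    refine gf_sound x.1 x.2 m hx2.1 hx2.2.1 hm0 ?_ h3.2
    by_contra h4
    have h5 := Nat.mul_le_mul_left x.1 (not_lt.1 h4)
    rw [← hm] at h5
    omega
  · -- `q` is one of the primes of the list, or it is very small or large
    rcases Nat.lt_or_ge q 37 with h37 | h37
    · have hall := List.all_eq_true.1 h
      have hqq : q = 2 ∨ q = 3 ∨ (∃ s, (q, s) ∈ ps) := by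
        unfold ps
        interval_cases q <;> first | (revert hq; norm_num; done) | (simp; done)
      rcases hqq with rfl | rfl | ⟨s, hs⟩
      · exact key 2 Nat.prime_two h1 h2 (tiny 2 Nat.prime_two (by omega))
      · exact key 3 Nat.prime_three h1 h2 (tiny 3 Nat.prime_three (by omega))
      · exfalso
        have h3 := hall (q, s) hs
        rw [ex_iff.2 ⟨h1, h2⟩] at h3
        cases h3
    · exact key q hq h1 h2 (big q hq h37)

end Pool.Agent.Helper52.PN
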