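import Pool.Agent.Helper52.PN.Prog
import Pool.Agent.Helper89.PQ0.Tup

/-! # Project PN (MP_2b6189_al): a verified search, soundness of the test of one prime -/

set_option autoImplicit false

namespace Pool.Agent.Helper52.PN.Sr

open Pool.Agent.Helper89.PQ0 (Tup)

/-- The data `N`, `A` and the tuple of a ghost prime. -/
def Gho (p m : ℕ) : Prop :=
  ∃ N A : ℕ, 3 ≤ N ∧ N ∣ p - 1 ∧ A ∣ m ∧ (p + 1) ^ 2 ≤ 2 * A ∧
    ((p : ℤ) ∣ A - N ∨ (p : ℤ) ∣ A + N) ∧ Tup p m N A

theorem res (p : ℕ) (hp : 0 < p) (a : ℕ) (w : ℤ) (h1 : (p : ℤ) ∣ w + a) (h2 : w ^ 2 < p) :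
    w = -((a % p : ℕ) : ℤ) ∨ w = (p : ℤ) - ((a % p : ℕ) : ℤ) := by
  obtain ⟨c, hc⟩ := h1
  have h3 : (a : ℤ) = p * (a / p : ℕ) + (a % p : ℕ) := by
    exact_mod_cast (Nat.div_add_mod a p).symm
  have h4 : ((a % p : ℕ) : ℤ) < p := by exact_mod_cast Nat.mod_lt a hp
  have h5 : (0 : ℤ) ≤ ((a % p : ℕ) : ℤ) := Int.natCast_nonneg _
  have hp1 : (1 : ℤ) ≤ p := by exact_mod_cast hp
  have h6 : w < p := by nlinarith
  have h7 : -(p : ℤ) < w := by nlinarith
  set t : ℤ := c - (a / p : ℕ) with ht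
  have h8 : w = p * t - ((a % p : ℕ) : ℤ) := by
    rw [ht]
    linear_combination hc - h3
  have h9 : 0 ≤ t := by
    by_contra h
    have : t ≤ -1 := by omega
    nlinarith
  have h10 : t ≤ 1 := by
    by_contra h
    have : 2 ≤ t := by omega
    nlinarith
  rcases (by omega : t = 0 ∨ t = 1) with h | h
  · left
    rw [h8, h]; ring
  · right
    rw [h8, h]; ring

/-- the element of the list of a pair -/
def toE (w : ℤ) (d : ℕ) : E := (decide (0 < w), w.natAbs, d)

theorem val_toE (w : ℤ) (d : ℕ) : val (toE w d) = w * d := by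
  unfold val toE
  by_cases h : 0 < w
  · simp only [h, decide_true, if_true]
    rw [Int.natAbs_of_nonneg h.le]
  · simp only [h, decide_false, Bool.false_eq_true, if_false]
    rw [Int.ofNat_natAbs_of_nonpos (by omega), neg_neg]

theorem toE_neg (r d : ℕ) : toE (-(r : ℤ)) d = (false, r, d) := by
  unfold toE
  have h : ¬ (0 : ℤ) < -(r : ℤ) := by omega
  simp only [h, decide_false, Int.natAbs_neg, Int.natAbs_natCast]

theorem toE_pos (p r d : ℕ) (h : r < p) : toE ((p : ℤ) - (r : ℤ)) d = (true, p - r, d) := by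
  unfold toE
  have h1 : (0 : ℤ) < (p : ℤ) - (r : ℤ) := by omega
  have h2 : ((p : ℤ) - (r : ℤ)).natAbs = p - r := by omega
  simp only [h1, decide_true, h2]

theorem natAbs_mul_self' (w : ℤ) : ((w.natAbs * w.natAbs : ℕ) : ℤ) = w ^ 2 := by
  rw [Nat.cast_mul, ← sq, Int.natCast_natAbs, sq_abs]

/-- membership in the list of candidates -/
theorem toE_mem (p B A : ℕ) (D : List ℕ) (d : ℕ) (w : ℤ) (hp : 0 < p) (hd : d ∈ D) (h1 : 1 < d)
    (h2 : (p : ℤ) ∣ d + w) (h3 : w ^ 2 ≤ B) (h4 : (d : ℤ) ∣ A * w) (hB : B < p) :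
    toE w d ∈ regs p B A D := by
  obtain ⟨m1, m2⟩ := mem_regs p B A D d hd h1
  have hBp : (B : ℤ) < p := by exact_mod_cast hB
  rcases res p hp d w (by rwa [add_comm]) (by omega) with h | h
  · rw [h, toE_neg]
    apply m1
    · have e1 : (((d % p) * (d % p) : ℕ) : ℤ) = w ^ 2 := by rw [h]; push_cast; ring
      have : (((d % p) * (d % p) : ℕ) : ℤ) ≤ B := by rw [e1]; exact h3
      exact_mod_cast this
    · rw [h] at h4
      have : (d : ℤ) ∣ ((A * (d % p) : ℕ) : ℤ) := by
        have h5 := (dvd_neg).2 h4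
        have e : -((A : ℤ) * -((d % p : ℕ) : ℤ)) = ((A * (d % p) : ℕ) : ℤ) := by push_cast; ring
        rwa [e] at h5
      exact_mod_cast this
  · have hr : d % p < p := Nat.mod_lt d hp
    rw [h, toE_pos p (d % p) d hr]
    have hc : (((p - d % p : ℕ) : ℤ)) = w := by rw [h]; push_cast [hr.le]; ring
    apply m2
    · have e1 : (((p - d % p) * (p - d % p) : ℕ) : ℤ) = w ^ 2 := by
        rw [Nat.cast_mul, hc, sq]
      have : (((p - d % p) * (p - d % p) : ℕ) : ℤ) ≤ B := by rw [e1]; exact h3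
      exact_mod_cast this
    · have : (d : ℤ) ∣ ((A * (p - d % p) : ℕ) : ℤ) := by
        rw [Nat.cast_mul, hc]
        exact h4
      exact_mod_cast this

theorem sc_of (p g A d : ℕ) (y Q : ℤ) (a : ℕ) (ha : (a : ℤ) ^ 2 = y ^ 2) (hg : g ≤ p)
    (h0 : 0 ≤ Q) (hsq : y ^ 2 + g * Q = (p : ℤ) - g) (h4 : (d : ℤ) ∣ A * a) :
    sc p g A a d = true := by
  have h1 : a * a ≤ p - g := by
    have : ((a * a : ℕ) : ℤ) ≤ ((p - g : ℕ) : ℤ) := by
      push_cast [hg]
      nlinarith [mul_nonneg (Int.natCast_nonneg g) h0]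
    exact_mod_cast this
  have h2 : g ∣ p - g - a * a := by
    have : (g : ℤ) ∣ ((p - g - a * a : ℕ) : ℤ) := by
      rw [Nat.cast_sub h1, Nat.cast_sub hg]
      exact ⟨Q, by push_cast; linarith⟩
    exact_mod_cast this
  have h3 : d ∣ A * a := by exact_mod_cast h4
  unfold sc
  rw [Bool.and_eq_true, Bool.and_eq_true, Nat.ble_eq, Nat.mod_eq_zero_of_dvd h2,
    Nat.mod_eq_zero_of_dvd h3]
  exact ⟨h1, rfl, rfl⟩

/-- membership in the list of exceptional candidates -/
theorem toE_mem_specs (p g A : ℕ) (D : List ℕ) (d : ℕ) (y Q : ℤ) (hp : 0 < p) (hd : d ∈ D)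
    (h1 : 1 < d) (hg : g ≤ p) (hg0 : 0 < g) (h0 : 0 ≤ Q) (hsq : y ^ 2 + g * Q = (p : ℤ) - g)
    (h2 : (p : ℤ) ∣ y + ((g * d : ℕ) : ℤ)) (h4 : (d : ℤ) ∣ A * y) :
    toE y d ∈ specs p g A D := by
  obtain ⟨m1, m2⟩ := mem_specs p g A D d hd h1
  have hy : y ^ 2 < p := by
    have h5 : (0 : ℤ) < g := by exact_mod_cast hg0
    nlinarith [mul_nonneg h5.le h0]
  rcases res p hp (g * d) y h2 hy with h | h
  · rw [h, toE_neg]
    apply m1
    apply sc_of p g A d y Q _ _ hg h0 hsq
    · have h5 := (dvd_neg).2 h4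
      rw [h] at h5
      have e : -((A : ℤ) * -((g * d % p : ℕ) : ℤ)) = A * ((g * d % p : ℕ) : ℤ) := by ring
      rwa [e] at h5
    · rw [h]; ring
  · have hr : g * d % p < p := Nat.mod_lt _ hp
    rw [h, toE_pos p (g * d % p) d hr]
    have hc : (((p - g * d % p : ℕ) : ℤ)) = y := by rw [h]; push_cast [hr.le]; ring
    apply m2
    apply sc_of p g A d y Q _ _ hg h0 hsq
    · rw [hc]; exact h4
    · rw [hc]

theorem gf_sound (p s m : ℕ) (hp : p.Prime) (hp5 : p ≤ 36) (hm : 0 < m)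
    (hs : m < (s + 1) ^ 2) (h : gf p s m = true) : ¬ Gho p m := by
  rintro ⟨N, A, hN3, hNp, hAm, hA, hc, g, y, e, k, w, d, hpg, hsq, hdim, he1, hem, heA, heN, hel,
    hij⟩
  have hp0 : 0 < p := hp.pos
  have hN0 : 0 < N := by omega
  have hg0 : 0 < g := by
    rcases Nat.eq_zero_or_pos g with rfl | h1
    · rw [mul_zero] at hpg
      rw [hpg] at hp
      exact absurd hp (by norm_num)
    · exact h1
  have hgp : g ≤ p := by
    rw [hpg]
    nlinarith
  have hNle : N ≤ p := by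
    rw [hpg]
    nlinarith
  unfold gf at h
  have hN := List.all_eq_true.1 h N
    (mem_divs (p - 1) 5 N hNp (by have := hp.two_le; omega) (by omega))
  rw [Bool.or_eq_true, Nat.ble_eq] at hN
  have hN2 := hN.resolve_left (by omega)
  have hAA := List.all_eq_true.1 hN2 A (mem_divs m s A hAm hm hs)
  rw [Bool.or_eq_true, Nat.ble_eq, Bool.or_eq_true] at hAA
  have hA1 : ¬ 2 * A + 1 ≤ (p + 1) * (p + 1) := by
    intro h1
    nlinarith
  have hA2 := hAA.resolve_left hA1
  have hA3 : ¬ ((!(Nat.beq ((A + (p - N)) % p) 0) && !(Nat.beq ((A + N) % p) 0)) = true) := by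
    intro h1
    rw [Bool.and_eq_true] at h1
    rcases hc with h2 | h2
    · have h3 : p ∣ A + (p - N) := by
        have : (p : ℤ) ∣ ((A + (p - N) : ℕ) : ℤ) := by
          have e2 : ((A + (p - N) : ℕ) : ℤ) = (A - N : ℤ) + p := by push_cast [hNle]; ring
          rw [e2]
          exact dvd_add h2 dvd_rfl
        exact_mod_cast this
      have h4 := h1.1
      rw [Nat.mod_eq_zero_of_dvd h3] at h4
      exact absurd h4 (by decide)
    · have h3 : p ∣ A + N := by exact_mod_cast h2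
      have h4 := h1.2
      rw [Nat.mod_eq_zero_of_dvd h3] at h4
      exact absurd h4 (by decide)
  have hS := hA2.resolve_left hA3
  have hgN : (p - 1) / N = g := by
    rw [hpg]
    have : 1 + N * g - 1 = N * g := by omega
    rw [this]
    exact Nat.mul_div_cancel_left g hN0
  rw [hgN] at hS
  have hD : ∀ x, x ∣ m → x ∈ divs m s s := fun x hx => mem_divs m s x hx hm hs
  set D := divs m s s with hDdef
  unfold srch at hS
  have hQ0 : 0 ≤ ∑ i, w i ^ 2 := Finset.sum_nonneg fun i _ => sq_nonneg _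
  have hgpos : (0 : ℤ) < g := by exact_mod_cast hg0
  have hpgZ : (p : ℤ) = 1 + N * g := by exact_mod_cast hpg
  have hyge : (p : ℤ) ∣ y + ((g * e : ℕ) : ℤ) := by
    obtain ⟨c, hc1⟩ := heN
    refine ⟨g * c + y, ?_⟩
    push_cast
    linear_combination (g : ℤ) * hc1 - y * hpgZ
  have hx := List.all_eq_true.1 hS (toE y e) (toE_mem_specs p g A D e y (∑ i, w i ^ 2) hp0
    (hD e hem) he1 hgp hg0 hQ0 hsq hyge heA)
  have hyab : y.natAbs * y.natAbs ≤ p - g := by
    have : ((y.natAbs * y.natAbs : ℕ) : ℤ) ≤ ((p - g : ℕ) : ℤ) := by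
      rw [natAbs_mul_self', Nat.cast_sub hgp]
      nlinarith [mul_nonneg hgpos.le hQ0]
    exact_mod_cast this
  have hwle : ∀ i, w i ^ 2 ≤ (((p - g) / g : ℕ) : ℤ) := by
    intro i
    have h1 : w i ^ 2 ≤ ∑ j, w j ^ 2 :=
      Finset.single_le_sum (f := fun j => w j ^ 2) (fun j _ => sq_nonneg (w j))
        (Finset.mem_univ i)
    have h2 : (w i).natAbs * (w i).natAbs ≤ (p - g) / g := by
      rw [Nat.le_div_iff_mul_le hg0]
      have : (((w i).natAbs * (w i).natAbs * g : ℕ) : ℤ) ≤ ((p - g : ℕ) : ℤ) := by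
        rw [Nat.cast_mul, natAbs_mul_self', Nat.cast_sub hgp]
        nlinarith [mul_le_mul_of_nonneg_left h1 hgpos.le, sq_nonneg y]
      exact_mod_cast this
    have h3 : (((w i).natAbs * (w i).natAbs : ℕ) : ℤ) ≤ (((p - g) / g : ℕ) : ℤ) := by
      exact_mod_cast h2
    rwa [natAbs_mul_self'] at h3
  have hBp : (p - g) / g < p := by
    have := Nat.div_le_self (p - g) g
    omega
  set M : List E := List.ofFn fun i => toE (w i) (d i) with hM
  have hMmem : ∀ x ∈ M, x ∈ (regs p ((p - g) / g) A D).filter (cp p (toE y e)) := by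
    intro x hx
    rw [hM, List.mem_ofFn] at hx
    obtain ⟨i, rfl⟩ := hx
    obtain ⟨h1, h2, h3, h4, h5, h6⟩ := hel i
    refine List.mem_filter.2 ⟨toE_mem p _ A D (d i) (w i) hp0 (hD _ h3) h2 h5 (hwle i) h4 hBp,
      cp_iff.2 ?_⟩
    unfold Cmp toE
    rw [Nat.gcd_comm]
    exact h6
  have hMP : M.Pairwise (Cmp p) := by
    rw [hM, List.pairwise_ofFn]
    intro i j h1
    unfold Cmp toE
    exact hij i j (ne_of_lt h1)
  have hM0 : ∀ x ∈ M, x.2.1 ≠ 0 := by
    intro x hx
    rw [hM, List.mem_ofFn] at hx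
    obtain ⟨i, rfl⟩ := hx
    unfold toE
    exact Int.natAbs_ne_zero.2 (hel i).1
  have hMsq : (M.map fun x => x.2.1 * x.2.1).sum = (p - g - y.natAbs * y.natAbs) / g := by
    have e1 : M.map (fun x => x.2.1 * x.2.1) = List.ofFn fun i => (w i).natAbs * (w i).natAbs := by
      rw [hM, List.map_ofFn]
      rfl
    rw [e1, List.sum_ofFn]
    symm
    apply Nat.div_eq_of_eq_mul_right hg0
    have : ((p - g - y.natAbs * y.natAbs : ℕ) : ℤ) =
        ((g * ∑ i, (w i).natAbs * (w i).natAbs : ℕ) : ℤ) := by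
      rw [Nat.cast_sub hyab, Nat.cast_sub hgp, natAbs_mul_self', Nat.cast_mul, Nat.cast_sum]
      have e2 : ∑ i, (((w i).natAbs * (w i).natAbs : ℕ) : ℤ) = ∑ i, w i ^ 2 :=
        Finset.sum_congr rfl fun i _ => natAbs_mul_self' (w i)
      rw [e2]
      linarith
    exact_mod_cast this
  have hMval : (M.map val).sum = ∑ i, w i * (d i : ℤ) := by
    have e1 : M.map val = List.ofFn fun i => w i * (d i : ℤ) := by
      rw [hM, List.map_ofFn]
      congr 1
      funext i
      exact val_toE (w i) (d i)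
    rw [e1, List.sum_ofFn]
  by_cases hy : 0 < y
  · have hxx : (toE y e).1 = true := by simp [toE, hy]
    unfold tst at hx
    rw [hxx] at hx
    refine nx_sound p 60 _ _ _ _ _ hx ?_ M hMmem hMP hM0 hMsq ?_
    · have : ((((toE y e).2.1 * (toE y e).2.2 : ℕ) : ℤ) - ((0 : ℕ) : ℤ)) = y * e := by
        simp only [toE]
        push_cast
        rw [abs_of_pos hy]
        ring
      rw [this]
      exact dvd_mul_left _ _
    · rw [hMval, ← hdim]
      simp only [toE]
      push_cast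
      rw [abs_of_pos hy]
      ring
  · have hxx : (toE y e).1 = false := by simp [toE, hy]
    unfold tst at hx
    rw [hxx] at hx
    have hy' : y ≤ 0 := by omega
    refine nx_sound p 60 _ _ _ _ _ hx ?_ M hMmem hMP hM0 hMsq ?_
    · have : (((0 : ℕ) : ℤ) - (((toE y e).2.1 * (toE y e).2.2 : ℕ) : ℤ)) = y * e := by
        simp only [toE]
        push_cast
        rw [abs_of_nonpos hy']
        ring
      rw [this]
      exact dvd_mul_left _ _
    · rw [hMval, ← hdim]
      simp only [toE]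
      push_cast
      rw [abs_of_nonpos hy']
      ring

end Pool.Agent.Helper52.PN.Sr
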